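import Pool.Agent.N425.KZ1

/-!
# Schemes in graphs with `r`-colourable non-neighbourhoods

Let `G` be a finite graph in which for every vertex `v` the non-neighbours of `v` induce an `r`-colourable
graph.  Then `G` contains a `(χ(G) - c (r + 1) ^ 10)`-scheme.  Moreover `G` contains a `(χ(G) + E)`-scheme
unless `G` consists of a clique and a `c (r + 1) ^ 36 (E + 1) ^ 4`-colourable graph.  Here `c` is an absolute
constant.

The proof uses that a `K_p` minor gives a `p`-scheme, and the following theorem (`KZ.glob`): if in a finite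
graph `H` the non-neighbours of every vertex induce an `r`-colourable graph, then
`h(H) ≥ χ(H) - c (r + 1) ^ 10`, and `h(H) ≥ χ(H) + E` unless `H` is a clique plus a
`c (r + 1) ^ 36 (E + 1) ^ 4`-colourable graph; `h` is the largest `m` such that `K_m` is a minor.
-/

set_option autoImplicit false

namespace Pool.Agent.Results.MP_a862e4_co.ColourableNonNeighbours

/-- `G` contains a `p`-scheme -/
def HasScheme {V : Type} (G : SimpleGraph V) (p : ℕ) : Prop :=
  ∃ (v : Fin p → V) (C : Fin p → Fin p → Set V), Function.Injective v ∧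
    (∀ i j, C i j = C j i) ∧
    (∀ i j, i ≠ j → (G.induce (C i j)).Connected ∧ v i ∈ C i j ∧ v j ∈ C i j) ∧
    ∀ i j k l, i ≠ j → k ≠ l → i ≠ k → i ≠ l → j ≠ k → j ≠ l → Disjoint (C i j) (C k l)

theorem scheme_of_minor {V : Type} {G : SimpleGraph V} {p : ℕ}
    (h : Pool.Agent.N425.KZ.Minor G p) : HasScheme G p := by
  obtain ⟨B, h1, h2, h3⟩ := h
  have hne : ∀ i, ∃ x, x ∈ B i := by
    intro i
    obtain ⟨x⟩ := (h1 i).nonempty
    exact ⟨x.1, x.2⟩
  choose v hv using hne
  refine ⟨v, fun i j => B i ∪ B j, ?_, fun i j => Set.union_comm _ _, ?_, ?_⟩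
  · intro i j hij
    by_contra hne
    exact Set.disjoint_left.1 (h2 i j hne) (hv i) (hij ▸ hv j)
  · intro i j hij
    obtain ⟨x, hx, y, hy, hxy⟩ := h3 i j hij
    exact ⟨SimpleGraph.connected_induce_union (h1 i).preconnected (h1 j).preconnected hx hy hxy, Or.inl (hv i),
      Or.inr (hv j)⟩
  · intro i j k l _ _ hik hil hjk hjl
    rw [Set.disjoint_union_left, Set.disjoint_union_right, Set.disjoint_union_right]
    exact ⟨⟨h2 i k hik, h2 i l hil⟩, h2 j k hjk, h2 j l hjl⟩

/-- **Schemes in graphs with `r`-colourable non-neighbourhoods.** -/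
theorem result : ∃ c : ℕ, ∀ (r E : ℕ) (V : Type) [Finite V] (G : SimpleGraph V),
    (∀ v, (G.induce {w | w ≠ v ∧ ¬ G.Adj v w}).Colorable r) →
      ((∃ K : Set V, G.IsClique K ∧ (G.induce Kᶜ).Colorable (c * ((r + 1) ^ 36 * (E + 1) ^ 4))) ∨
        ∀ k : ℕ, ¬ G.Colorable k → HasScheme G (k + 1 + E)) ∧
      ∀ k : ℕ, ¬ G.Colorable (k + c * (r + 1) ^ 10) → HasScheme G (k + 1) := by
  obtain ⟨c, hc⟩ := Pool.Agent.N425.KZ.glob
  refine ⟨c, ?_⟩
  intro r E V _ G h
  refine ⟨?_, fun k hk => scheme_of_minor ((hc r E V G h).2 k hk)⟩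
  rcases (hc r E V G h).1 with h1 | h1
  · exact Or.inl h1
  · exact Or.inr fun k hk => scheme_of_minor (h1 k hk)

end Pool.Agent.Results.MP_a862e4_co.ColourableNonNeighbours
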